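import Mathlib
import Pool.Agent.W811.Dos.Stm
import Pool.Agent.W965.Stu.HolEx
import Pool.Agent.W811.Stu.Final

/-! # All leaves meet the curve (DD-CR) -/

set_option autoImplicit false

namespace Pool.Agent.W597.Dos

open Pool.Agent.W811.Stu Pool.Agent.W965.Stu

theorem cr_of (h1 : TCross) (h2 : TLeafEx) (h4 : TDist) (h5 : TTwist) :
    Pool.Agent.W811.Dos.TCr := by
  intro lam hlam
  have hδ0 : 0 < lam / 2 := by linarith
  have hcc : 1 < cc (lam / 2) := one_lt_cc hδ0.ne'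
  have hk1 : (1 : ℝ) < 1 + (lam / 2) ^ 2 := by
    have : 0 < (lam / 2) ^ 2 := by positivity
    linarith
  have hN0 : 0 ≤ N0 (lam / 2) 1 := by linarith [N0_ge hδ0.ne' zero_le_one hk1]
  obtain ⟨B, hB⟩ := h1 (lam / 2) hδ0 (N0 (lam / 2) 1) hN0
  refine ⟨B, ?_⟩
  intro d hd n hn
  -- the window
  obtain ⟨Ez, hEz⟩ := HolEx.exists_zero lam d n hd
  obtain ⟨u, v, _, _, huv, hw, hends⟩ := ((h4 lam hlam.ne' d hd n).2 (1 / 2) (by norm_num)
    (by linarith)).2 Ez (by rw [hEz]; norm_num)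
  refine ⟨u, v, ⟨huv, hw⟩, ?_⟩
  intro E0 M hM hM1
  rcases hends with ⟨hu, hv⟩ | ⟨hu, hv⟩
  · have := HolEx.one lam hlam B hB h2 h5 d hd n hn u v hu hv
      (by rw [Set.uIcc_of_le huv.le]; exact hw) E0 M hM hM1
    rw [Set.uIcc_of_le huv.le] at this
    exact this
  · have := HolEx.one lam hlam B hB h2 h5 d hd n hn v u hv hu
      (by rw [Set.uIcc_of_ge huv.le]; exact hw) E0 M hM hM1
    rw [Set.uIcc_of_ge huv.le] at this
    exact this

/-- DD-CR -/
theorem cr : Pool.Agent.W811.Dos.TCr :=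
  cr_of Pool.Agent.W308.Stu.tCross tLeafEx tDist tTwist

end Pool.Agent.W597.Dos
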